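import Pool.Agent.R271.Basic
import Pool.Agent.H130R4.DADefs

/-!
# A projective tensor product with an octahedral factor which is not octahedral
-/

open Finset Filter Topology Pool.Agent.H130R4.DA
open scoped ENNReal

namespace Pool.Agent.Results.MP_247e0b_an.ProjectiveTensorNotOctahedral

/-- Octahedral spaces. -/
def Octahedral (Z : Type) [NormedAddCommGroup Z] [NormedSpace ℝ Z] : Prop :=
  ∀ E : Submodule ℝ Z, FiniteDimensional ℝ E → ∀ ε : ℝ, 0 < ε →
    ∃ y : Z, ‖y‖ = 1 ∧ ∀ x ∈ E, ∀ t : ℝ, (1 - ε) * (‖x‖ + |t|) ≤ ‖x + t • y‖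

/-! ### The five-dimensional space -/

/-- The underlying vector space of the five-dimensional space `Y`. -/
def Y : Type := Fin 5 → ℝ

noncomputable instance : AddCommGroup Y := inferInstanceAs (AddCommGroup (Fin 5 → ℝ))
noncomputable instance : Module ℝ Y := inferInstanceAs (Module ℝ (Fin 5 → ℝ))
instance : FiniteDimensional ℝ Y := inferInstanceAs (FiniteDimensional ℝ (Fin 5 → ℝ))

/-- The sum of the absolute values of the coordinates. -/
def aN (y : Y) : ℝ := ∑ k : Fin 5, |y k|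

/-- The reflection in the hyperplane orthogonal to `(1, 1, 1, 1, 1)`. -/
noncomputable def R : Y →ₗ[ℝ] Y where
  toFun y := fun k => y k - (2 / 5) * ∑ j : Fin 5, y j
  map_add' x y := by
    funext k
    show x k + y k - (2 / 5) * ∑ j : Fin 5, (x j + y j) =
      (x k - (2 / 5) * ∑ j : Fin 5, x j) + (y k - (2 / 5) * ∑ j : Fin 5, y j)
    rw [Finset.sum_add_distrib]
    ring
  map_smul' c y := by
    funext k
    show c * y k - (2 / 5) * ∑ j : Fin 5, (c * y j) =
      c * (y k - (2 / 5) * ∑ j : Fin 5, y j)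
    rw [← Finset.mul_sum]
    ring

lemma R_apply (y : Y) (k : Fin 5) : R y k = y k - (2 / 5) * ∑ j : Fin 5, y j := rfl

lemma R_R (y : Y) : R (R y) = y := by
  funext k
  rw [R_apply, R_apply]
  have : ∑ j : Fin 5, R y j = - ∑ j : Fin 5, y j := by
    simp only [R_apply, Finset.sum_sub_distrib, Finset.sum_const, Finset.card_univ,
      Fintype.card_fin]
    rw [nsmul_eq_mul]
    push_cast
    ring
  rw [this]
  ring

lemma aN_nonneg (y : Y) : 0 ≤ aN y := Finset.sum_nonneg fun _ _ => abs_nonneg _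

lemma aN_add (x y : Y) : aN (x + y) ≤ aN x + aN y := by
  rw [aN, aN, aN, ← Finset.sum_add_distrib]
  exact Finset.sum_le_sum fun k _ => abs_add_le _ _

lemma aN_smul (c : ℝ) (y : Y) : aN (c • y) = |c| * aN y := by
  rw [aN, aN, Finset.mul_sum]
  exact Finset.sum_congr rfl fun k _ => abs_mul _ _

lemma aN_neg (y : Y) : aN (-y) = aN y := by
  have := aN_smul (-1) y
  rw [neg_one_smul, abs_neg, abs_one, one_mul] at this
  exact this

lemma aN_eq_zero {y : Y} (h : aN y = 0) : y = 0 := by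
  funext k
  rw [aN, Finset.sum_eq_zero_iff_of_nonneg fun _ _ => abs_nonneg _] at h
  exact abs_eq_zero.1 (h k (Finset.mem_univ _))

/-- The norm of the space `Y`. -/
noncomputable def nrm : AddGroupNorm Y where
  toFun y := max (max (aN y) (aN (R y))) (5 / 9 * (aN y + aN (R y)))
  map_zero' := by
    have h0 : aN 0 = 0 := by
      have := aN_smul 0 0
      simpa using this
    rw [map_zero, h0]
    norm_num
  add_le' x y := by
    rw [map_add]
    have h1 := aN_add x y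
    have h2 := aN_add (R x) (R y)
    have h3 := le_max_left (max (aN x) (aN (R x))) (5 / 9 * (aN x + aN (R x)))
    have h4 := le_max_right (max (aN x) (aN (R x))) (5 / 9 * (aN x + aN (R x)))
    have h5 := le_max_left (max (aN y) (aN (R y))) (5 / 9 * (aN y + aN (R y)))
    have h6 := le_max_right (max (aN y) (aN (R y))) (5 / 9 * (aN y + aN (R y)))
    have h7 := le_max_left (aN x) (aN (R x))
    have h8 := le_max_right (aN x) (aN (R x))
    have h9 := le_max_left (aN y) (aN (R y))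
    have h10 := le_max_right (aN y) (aN (R y))
    refine max_le (max_le ?_ ?_) ?_ <;> linarith
  neg' x := by rw [map_neg, aN_neg, aN_neg]
  eq_zero_of_map_eq_zero' x h := by
    apply aN_eq_zero
    apply le_antisymm _ (aN_nonneg x)
    rw [← h]
    exact (le_max_left _ _).trans (le_max_left _ _)

noncomputable instance : NormedAddCommGroup Y := nrm.toNormedAddCommGroup

lemma norm_def (y : Y) : ‖y‖ = max (max (aN y) (aN (R y))) (5 / 9 * (aN y + aN (R y))) := rfl

noncomputable instance : NormedSpace ℝ Y where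
  norm_smul_le c y := by
    rw [norm_def, norm_def, map_smul, aN_smul, aN_smul, ← mul_max_of_nonneg _ _ (abs_nonneg c),
      ← mul_add, mul_left_comm, ← mul_max_of_nonneg _ _ (abs_nonneg c)]
    exact le_rfl

instance : CompleteSpace Y := FiniteDimensional.complete ℝ Y

lemma aN_le (y : Y) : aN y ≤ ‖y‖ := (le_max_left _ _).trans (le_max_left _ _)

lemma norm_R (y : Y) : ‖R y‖ = ‖y‖ := by
  rw [norm_def, norm_def, R_R, max_comm (aN (R y)) (aN y), add_comm (aN (R y)) (aN y)]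

lemma min_le (y : Y) (hy : ‖y‖ ≤ 1) : aN y ≤ 9 / 10 ∨ aN (R y) ≤ 9 / 10 := by
  have h1 : 5 / 9 * (aN y + aN (R y)) ≤ 1 := (le_max_right _ _).trans hy
  by_contra hcon
  push Not at hcon
  linarith [hcon.1, hcon.2]

/-- The unit vectors. -/
def ev (k : Fin 5) : Y := Pi.single k 1

/-- The vectors with a zero, a minus one and three ones. -/
def zv (i l : Fin 5) : Y := fun k => if k = i then 0 else if k = l then -1 else 1

lemma norm_zv {i l : Fin 5} (h : l ≠ i) : ‖zv i l‖ ≤ 4 := by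
  rw [norm_def]
  have h1 : aN (zv i l) = 4 := by
    rw [aN, Fin.sum_univ_five]
    fin_cases i <;> fin_cases l <;> first | exact absurd rfl h | (simp [zv]; norm_num)
  have h2 : aN (R (zv i l)) = 16 / 5 := by
    rw [aN, Fin.sum_univ_five]
    simp only [R_apply, Fin.sum_univ_five]
    fin_cases i <;> fin_cases l <;> first | exact absurd rfl h | (simp [zv]; norm_num [abs_of_nonneg, abs_of_nonpos])
  rw [h1, h2]
  norm_num

lemma zv_orth (k m n : Fin 5) :
    ∑ l ∈ univ.erase k, zv k l m * zv k l n = if m = n ∧ m ≠ k then 4 else 0 := by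
  have h : ∑ l ∈ univ.erase k, zv k l m * zv k l n =
      ∑ l : Fin 5, if l = k then 0 else zv k l m * zv k l n := by
    rw [← Finset.sum_erase_add _ _ (Finset.mem_univ k), if_pos rfl, add_zero]
    exact Finset.sum_congr rfl fun l hl => (if_neg (Finset.ne_of_mem_erase hl)).symm
  rw [h, Fin.sum_univ_five]
  simp only [zv]
  fin_cases k <;> fin_cases m <;> fin_cases n <;> (simp; try norm_num)

lemma eq_sum_ev (y : Y) : y = ∑ n : Fin 5, y n • ev n := by
  funext k
  have h : (∑ n : Fin 5, y n • ev n) k = ∑ n : Fin 5, (y n • ev n) k := Finset.sum_apply _ _ _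
  rw [h]
  have h2 : ∀ n, (y n • ev n) k = y n * (Pi.single n 1 : Fin 5 → ℝ) k := fun n => rfl
  simp only [h2, Pi.single_apply]
  simp

section tensor

variable {B : Type} [NormedAddCommGroup B] [NormedSpace ℝ B]
  {Z : Type} [SeminormedAddCommGroup Z] [NormedSpace ℝ Z]
  (τ : (Fin 5 → B) →ₗ[ℝ] Y →ₗ[ℝ] Z)

/-- The vector with coordinates `c m • p m`. -/
def mulv (c : Fin 5 → ℝ) (p : Fin 5 → B) : Fin 5 → B := fun m => c m • p m

/-- The diagonal terms. -/
noncomputable def A (p : Fin 5 → B) (m : Fin 5) : Z := τ (Pi.single m (p m)) (ev m)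

/-- The sum of all diagonal terms but one. -/
noncomputable def S (p : Fin 5 → B) (k : Fin 5) : Z := ∑ m ∈ univ.erase k, A τ p m

lemma mulv_eq (c : Fin 5 → ℝ) (p : Fin 5 → B) :
    mulv c p = ∑ m : Fin 5, c m • (Pi.single m (p m) : Fin 5 → B) := by
  funext j
  rw [Finset.sum_apply]
  simp only [Pi.smul_apply, mulv]
  rw [Finset.sum_eq_single j]
  · rw [Pi.single_eq_same]
  · intro b _ hb
    rw [Pi.single_eq_of_ne hb.symm, smul_zero]
  · intro h
    exact absurd (Finset.mem_univ _) h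

lemma tau_eq (q : Fin 5 → B) (w : Y) : τ q w = ∑ n : Fin 5, w n • τ q (ev n) := by
  conv_lhs => rw [eq_sum_ev w]
  rw [map_sum]
  exact Finset.sum_congr rfl fun n _ => map_smul _ _ _

lemma key_identity (p : Fin 5 → B) (k : Fin 5) (x : B) (θ : Fin 5 → ℝ) :
    ∑ l ∈ univ.erase k, τ (mulv (zv k l) p + θ l • (Pi.single k x : Fin 5 → B)) (zv k l) =
      (4 : ℝ) • S τ p k + τ (Pi.single k x) (∑ l ∈ univ.erase k, θ l • zv k l) := by
  have h1 : ∀ l, τ (mulv (zv k l) p + θ l • (Pi.single k x : Fin 5 → B)) (zv k l) =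
      (∑ m : Fin 5, ∑ n : Fin 5, (zv k l m * zv k l n) • τ (Pi.single m (p m)) (ev n)) +
        τ (Pi.single k x) (θ l • zv k l) := by
    intro l
    rw [map_add, LinearMap.add_apply, map_smul, LinearMap.smul_apply, map_smul]
    congr 1
    rw [mulv_eq, map_sum, LinearMap.sum_apply]
    refine Finset.sum_congr rfl fun m _ => ?_
    rw [map_smul, LinearMap.smul_apply, tau_eq, Finset.smul_sum]
    refine Finset.sum_congr rfl fun n _ => ?_
    rw [smul_smul]
  rw [Finset.sum_congr rfl fun l _ => h1 l, Finset.sum_add_distrib, ← map_sum]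
  congr 1
  rw [Finset.sum_comm]
  have h2 : ∀ m : Fin 5, ∑ l ∈ univ.erase k, ∑ n : Fin 5,
      (zv k l m * zv k l n) • τ (Pi.single m (p m)) (ev n) =
      if m ≠ k then (4 : ℝ) • A τ p m else 0 := by
    intro m
    rw [Finset.sum_comm]
    have h3 : ∀ n : Fin 5, ∑ l ∈ univ.erase k, (zv k l m * zv k l n) •
        τ (Pi.single m (p m)) (ev n) = (if m = n ∧ m ≠ k then (4 : ℝ) else 0) •
          τ (Pi.single m (p m)) (ev n) := by
      intro n
      rw [← Finset.sum_smul, zv_orth]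
    rw [Finset.sum_congr rfl fun n _ => h3 n]
    rw [Finset.sum_eq_single m]
    · by_cases hm : m ≠ k
      · rw [if_pos ⟨rfl, hm⟩, if_pos hm]
        rfl
      · rw [if_neg fun h => hm h.2, if_neg hm, zero_smul]
    · intro n _ hn
      rw [if_neg fun h => hn h.1.symm, zero_smul]
    · intro h
      exact absurd (Finset.mem_univ _) h
  rw [Finset.sum_congr rfl fun m _ => h2 m, S, Finset.smul_sum, ← Finset.sum_filter]
  congr 1
  ext m
  simp

lemma S_congr {p p' : Fin 5 → B} {k : Fin 5} (h : ∀ m, m ≠ k → p m = p' m) :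
    S τ p k = S τ p' k := by
  refine Finset.sum_congr rfl fun m hm => ?_
  rw [A, A, h m (Finset.ne_of_mem_erase hm)]

lemma S_add (p : Fin 5 → B) (k : Fin 5) : S τ p k + A τ p k = ∑ m : Fin 5, A τ p m := by
  rw [S, Finset.sum_erase_add _ _ (Finset.mem_univ k)]

lemma sum_S (p : Fin 5 → B) : ∑ k : Fin 5, S τ p k = (4 : ℝ) • ∑ k : Fin 5, A τ p k := by
  have h : ∀ k, S τ p k = ∑ m : Fin 5, A τ p m - A τ p k := by
    intro k
    rw [← S_add τ p k]
    abel
  rw [Finset.sum_congr rfl fun k _ => h k, Finset.sum_sub_distrib, Finset.sum_const,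
    Finset.card_univ, Fintype.card_fin]
  module

lemma sum_erase_S (p : Fin 5 → B) (i : Fin 5) : ∑ k ∈ univ.erase i, S τ p k =
    (3 : ℝ) • S τ p i + (4 : ℝ) • A τ p i := by
  have h1 := Finset.sum_erase_add univ (fun k => S τ p k) (Finset.mem_univ i)
  have h2 := sum_S τ p
  rw [← S_add τ p i, ← h1] at h2
  have h3 : ∑ k ∈ univ.erase i, S τ p k = (4 : ℝ) • (S τ p i + A τ p i) - S τ p i := by
    rw [← h2]
    abel
  rw [h3]
  module

/-- The central tensor. -/
noncomputable def uu (b : B) : Z := (1 / 5 : ℝ) • ∑ k : Fin 5, A τ (fun _ => b) k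

lemma uu_eq (b : B) : uu τ b = (1 / 20 : ℝ) • ∑ k : Fin 5, S τ (fun _ => b) k := by
  rw [uu, sum_S, smul_smul]
  norm_num

lemma tau_split (x : Fin 5 → B) (w : Y) :
    τ x w = ∑ i : Fin 5, τ (Pi.single i (x i)) w := by
  have h : x = ∑ i : Fin 5, (Pi.single i (x i) : Fin 5 → B) := by
    rw [Finset.univ_sum_single]
  conv_lhs => rw [h]
  rw [map_sum, LinearMap.sum_apply]

variable {τ} (hτ : ∀ x y, ‖τ x y‖ ≤ ‖x‖ * ‖y‖)
include hτ

lemma norm_key {p : Fin 5 → B} (hp : ∀ m, ‖p m‖ ≤ 1) (k : Fin 5) {x : B} (hx : ‖x‖ ≤ 1)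
    {θ : Fin 5 → ℝ} (hθ : ∀ l, |θ l| ≤ 1) :
    ‖S τ p k + (1 / 4 : ℝ) • τ (Pi.single k x) (∑ l ∈ univ.erase k, θ l • zv k l)‖ ≤ 4 := by
  have h1 : S τ p k + (1 / 4 : ℝ) • τ (Pi.single k x) (∑ l ∈ univ.erase k, θ l • zv k l) =
      (1 / 4 : ℝ) • ∑ l ∈ univ.erase k, τ (mulv (zv k l) p + θ l • (Pi.single k x : Fin 5 → B)) (zv k l) := by
    rw [key_identity, smul_add, smul_smul]
    norm_num
  rw [h1, norm_smul, Real.norm_of_nonneg (by norm_num)]
  have h2 : ∀ l ∈ univ.erase k, ‖τ (mulv (zv k l) p + θ l • (Pi.single k x : Fin 5 → B)) (zv k l)‖ ≤ 4 := by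
    intro l hl
    have h3 : ‖mulv (zv k l) p + θ l • (Pi.single k x : Fin 5 → B)‖ ≤ 1 := by
      rw [pi_norm_le_iff_of_nonneg zero_le_one]
      intro m
      rw [Pi.add_apply, Pi.smul_apply]
      by_cases hm : m = k
      · subst hm
        rw [Pi.single_eq_same, mulv]
        simp only [zv, if_true, zero_smul, zero_add]
        rw [norm_smul]
        exact mul_le_one₀ (hθ l) (norm_nonneg _) hx
      · rw [Pi.single_eq_of_ne hm, smul_zero, add_zero, mulv, norm_smul]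
        refine mul_le_one₀ ?_ (norm_nonneg _) (hp m)
        rw [zv, if_neg hm]
        split_ifs <;> simp
    refine (hτ _ _).trans ?_
    calc ‖mulv (zv k l) p + θ l • (Pi.single k x : Fin 5 → B)‖ * ‖zv k l‖ ≤ 1 * 4 :=
          mul_le_mul h3 (norm_zv (Finset.ne_of_mem_erase hl)) (norm_nonneg _) zero_le_one
      _ = 4 := one_mul _
  have h4 := (norm_sum_le _ _).trans (Finset.sum_le_sum h2)
  have hc : (univ.erase k).card = 4 := by
    rw [Finset.card_erase_of_mem (Finset.mem_univ _), Finset.card_univ, Fintype.card_fin]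
  rw [Finset.sum_const, hc, nsmul_eq_mul] at h4
  push_cast at h4
  linarith

lemma norm_S {p : Fin 5 → B} (hp : ∀ m, ‖p m‖ ≤ 1) (k : Fin 5) : ‖S τ p k‖ ≤ 4 := by
  have := norm_key hτ hp k (x := 0) (by simp) (θ := fun _ => 0) (by simp)
  simpa using this

lemma norm_sum_S {p : Fin 5 → B} (hp : ∀ m, ‖p m‖ ≤ 1) (i : Fin 5) :
    ‖∑ k ∈ univ.erase i, S τ p k‖ ≤ 16 := by
  have h4 := (norm_sum_le _ _).trans (Finset.sum_le_sum fun k (_ : k ∈ univ.erase i) =>
    norm_S hτ hp k)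
  have hc : (univ.erase i).card = 4 := by
    rw [Finset.card_erase_of_mem (Finset.mem_univ _), Finset.card_univ, Fintype.card_fin]
  rw [Finset.sum_const, hc, nsmul_eq_mul] at h4
  push_cast at h4
  linarith

lemma norm_diag {b : B} (hb : ‖b‖ ≤ 1) (i : Fin 5) {x : B} (hx : ‖x‖ ≤ 1) {s : ℝ} (hs : 0 ≤ s)
    (hs' : s ≤ 1 / 15) : ‖uu τ b + s • τ (Pi.single i x) (ev i)‖ ≤ 1 + s := by
  set p : Fin 5 → B := fun _ => b with hp
  set p' : Fin 5 → B := Function.update p i x with hp'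
  have hp1 : ∀ m, ‖p m‖ ≤ 1 := fun _ => hb
  have hp1' : ∀ m, ‖p' m‖ ≤ 1 := by
    intro m
    rw [hp', Function.update_apply]
    split_ifs
    · exact hx
    · exact hb
  have hS : S τ p' i = S τ p i := S_congr τ fun m hm => by
    rw [hp', Function.update_of_ne hm]
  have hA : A τ p' i = τ (Pi.single i x) (ev i) := by
    rw [A, hp', Function.update_self]
  have hu : uu τ b = (1 / 5 : ℝ) • (S τ p i + A τ p i) := by
    rw [S_add]
    rfl
  have h1 : uu τ b + s • τ (Pi.single i x) (ev i) =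
      (1 / 20 : ℝ) • ∑ k ∈ univ.erase i, S τ p k + (1 / 20 - 3 * s / 4) • S τ p i +
        (s / 4) • ∑ k ∈ univ.erase i, S τ p' k := by
    rw [sum_erase_S, sum_erase_S, hS, hA, hu]
    module
  rw [h1]
  refine (norm_add₃_le).trans ?_
  rw [norm_smul, norm_smul, norm_smul, Real.norm_of_nonneg (by norm_num),
    Real.norm_of_nonneg (by linarith), Real.norm_of_nonneg (by linarith)]
  have k1 := norm_sum_S hτ hp1 i
  have k2 := norm_S hτ hp1 i
  have k3 := norm_sum_S hτ hp1' i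
  nlinarith [mul_le_mul_of_nonneg_left k3 hs,
    mul_le_mul_of_nonneg_left k2 (show 0 ≤ 1 / 20 - 3 * s / 4 by linarith)]

lemma norm_diag' {b : B} (hb : ‖b‖ ≤ 1) (i : Fin 5) {x : B} (hx : ‖x‖ ≤ 1) {s : ℝ}
    (hs' : |s| ≤ 1 / 15) : ‖uu τ b + s • τ (Pi.single i x) (ev i)‖ ≤ 1 + |s| := by
  rcases le_total 0 s with h | h
  · rw [abs_of_nonneg h] at hs' ⊢
    exact norm_diag hτ hb i hx h hs'
  · rw [abs_of_nonpos h] at hs' ⊢
    have h1 := norm_diag hτ hb i (x := -x) (by rwa [norm_neg]) (s := -s) (by linarith) hs'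
    have h2 : (Pi.single i (-x) : Fin 5 → B) = -Pi.single i x := by
      rw [Pi.single_neg]
    rw [h2, map_neg, LinearMap.neg_apply, smul_neg, neg_smul, neg_neg] at h1
    exact h1

lemma norm_uu {b : B} (hb : ‖b‖ ≤ 1) : ‖uu τ b‖ ≤ 1 := by
  have := norm_diag hτ hb 0 (x := 0) (by simp) le_rfl (by norm_num)
  simpa using this

/-- The coefficients of the off-diagonal part. -/
noncomputable def th (w : Y) (k l : Fin 5) : ℝ := ((∑ j : Fin 5, w j - w k) / 2 - w l) / 2

omit hτ in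
lemma th_sum (w : Y) (k : Fin 5) :
    ∑ l ∈ univ.erase k, th w k l • zv k l = w - w k • ev k := by
  have h : ∀ m, (∑ l ∈ univ.erase k, th w k l • zv k l) m =
      ∑ l : Fin 5, if l = k then 0 else th w k l * zv k l m := by
    intro m
    have h0 : (∑ l ∈ univ.erase k, th w k l • zv k l) m =
        ∑ l ∈ univ.erase k, th w k l * zv k l m := Finset.sum_apply _ _ _
    rw [h0, ← Finset.sum_erase_add (univ : Finset (Fin 5)) _ (Finset.mem_univ k), if_pos rfl,
      add_zero]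
    exact Finset.sum_congr rfl fun l hl => (if_neg (Finset.ne_of_mem_erase hl)).symm
  funext m
  rw [h]
  have h2 : (w - w k • ev k) m = w m - w k * (Pi.single k 1 : Fin 5 → ℝ) m := rfl
  rw [h2, Fin.sum_univ_five, Pi.single_apply]
  simp only [zv, th, Fin.sum_univ_five]
  fin_cases k <;> fin_cases m <;> simp <;> ring

omit hτ in
lemma abs_le_aN (w : Y) (l : Fin 5) : |w l| ≤ aN w :=
  Finset.single_le_sum (f := fun k => |w k|) (fun _ _ => abs_nonneg _) (Finset.mem_univ l)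

omit hτ in
lemma th_le {w : Y} (hw : aN w ≤ 1) (k l : Fin 5) : |th w k l| ≤ 1 := by
  have h1 : |∑ j : Fin 5, w j - w k| ≤ aN w := by
    have h2 : ∑ j : Fin 5, w j - w k = ∑ j ∈ univ.erase k, w j := by
      rw [← Finset.sum_erase_add (univ : Finset (Fin 5)) _ (Finset.mem_univ k)]
      ring
    rw [h2]
    refine (Finset.abs_sum_le_sum_abs _ _).trans ?_
    exact Finset.sum_le_sum_of_subset_of_nonneg (Finset.erase_subset _ _)
      fun _ _ _ => abs_nonneg _
  have h2 := abs_le_aN w l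
  rw [abs_le] at h1 h2 ⊢
  rw [th]
  constructor <;> linarith [h1.1, h1.2, h2.1, h2.2]

lemma norm_off {b : B} (hb : ‖b‖ ≤ 1) {x : Fin 5 → B} (hx : ∀ i, ‖x i‖ ≤ 1) {w : Y}
    (hw : aN w ≤ 1) :
    ‖uu τ b + (1 / 80 : ℝ) • ∑ i : Fin 5, τ (Pi.single i (x i)) (w - w i • ev i)‖ ≤ 1 := by
  have h1 : uu τ b + (1 / 80 : ℝ) • ∑ i : Fin 5, τ (Pi.single i (x i)) (w - w i • ev i) =
      (1 / 20 : ℝ) • ∑ i : Fin 5, (S τ (fun _ => b) i +
        (1 / 4 : ℝ) • τ (Pi.single i (x i)) (∑ l ∈ univ.erase i, th w i l • zv i l)) := by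
    rw [uu_eq, Finset.sum_add_distrib, smul_add, ← Finset.smul_sum, smul_smul]
    simp only [th_sum]
    norm_num
  rw [h1, norm_smul, Real.norm_of_nonneg (by norm_num)]
  have h4 := (norm_sum_le _ _).trans (Finset.sum_le_sum fun i (_ : i ∈ (univ : Finset (Fin 5))) =>
    norm_key hτ (p := fun _ => b) (fun _ => hb) i (hx i) (th_le hw i))
  rw [Finset.sum_const, Finset.card_univ, Fintype.card_fin, nsmul_eq_mul] at h4
  push_cast at h4
  linarith

lemma norm_mix {b : B} (hb : ‖b‖ ≤ 1) {x : Fin 5 → B} (hx : ∀ i, ‖x i‖ ≤ 1) {w : Y}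
    (hw : aN w ≤ 1) : ‖uu τ b + (1 / 160 : ℝ) • τ x w‖ ≤ 1 + aN w / 160 := by
  have h1 : uu τ b + (1 / 160 : ℝ) • τ x w =
      (1 / 10 : ℝ) • ∑ i : Fin 5, (uu τ b + (w i / 16) • τ (Pi.single i (x i)) (ev i)) +
      (1 / 2 : ℝ) • (uu τ b +
        (1 / 80 : ℝ) • ∑ i : Fin 5, τ (Pi.single i (x i)) (w - w i • ev i)) := by
    have h2 : τ x w = ∑ i : Fin 5, w i • τ (Pi.single i (x i)) (ev i) +
        ∑ i : Fin 5, τ (Pi.single i (x i)) (w - w i • ev i) := by
      rw [tau_split, ← Finset.sum_add_distrib]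
      refine Finset.sum_congr rfl fun i _ => ?_
      rw [map_sub, map_smul]
      abel
    have h3 : ∑ i : Fin 5, (uu τ b + (w i / 16) • τ (Pi.single i (x i)) (ev i)) =
        (5 : ℝ) • uu τ b + (1 / 16 : ℝ) • ∑ i : Fin 5, w i • τ (Pi.single i (x i)) (ev i) := by
      rw [Finset.sum_add_distrib, Finset.sum_const, Finset.card_univ, Fintype.card_fin,
        Finset.smul_sum]
      congr 1
      · module
      · refine Finset.sum_congr rfl fun i _ => ?_
        rw [smul_smul]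
        congr 1
        ring
    rw [h2, h3]
    module
  rw [h1]
  refine (norm_add_le _ _).trans ?_
  rw [norm_smul, norm_smul, Real.norm_of_nonneg (by norm_num), Real.norm_of_nonneg (by norm_num)]
  have h5 := norm_off hτ hb hx hw
  have h6 : ‖∑ i : Fin 5, (uu τ b + (w i / 16) • τ (Pi.single i (x i)) (ev i))‖ ≤
      5 + aN w / 16 := by
    have h7 : ∀ i : Fin 5, ‖uu τ b + (w i / 16) • τ (Pi.single i (x i)) (ev i)‖ ≤
        1 + |w i| / 16 := by
      intro i
      have h8 : |w i / 16| = |w i| / 16 := by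
        rw [abs_div, abs_of_pos (show (0 : ℝ) < 16 by norm_num)]
      have h9 := abs_le_aN w i
      rw [← h8]
      apply norm_diag' hτ hb i (hx i)
      rw [h8]
      linarith
    refine (norm_sum_le _ _).trans ((Finset.sum_le_sum fun i _ => h7 i).trans (le_of_eq ?_))
    rw [Finset.sum_add_distrib, Finset.sum_const, Finset.card_univ, Fintype.card_fin,
      ← Finset.sum_div, aN]
    norm_num
  linarith

lemma norm_hom {b : B} (hb : ‖b‖ ≤ 1) (x : Fin 5 → B) (w : Y) (hw : aN w ≤ 9 / 10 * ‖w‖) :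
    ‖(‖x‖ * ‖w‖) • uu τ b + τ x w‖ ≤ (2 - 1 / 1600) * (‖x‖ * ‖w‖) := by
  rcases (norm_nonneg x).eq_or_lt with h0 | h0
  · rw [← h0, zero_mul, zero_smul, zero_add, mul_zero]
    refine (hτ x w).trans (le_of_eq ?_)
    rw [← h0, zero_mul]
  rcases (norm_nonneg w).eq_or_lt with h1 | h1
  · rw [← h1, mul_zero, zero_smul, zero_add, mul_zero]
    refine (hτ x w).trans (le_of_eq ?_)
    rw [← h1, mul_zero]
  set x' : Fin 5 → B := ‖x‖⁻¹ • x with hx'
  set w' : Y := ‖w‖⁻¹ • w with hw'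
  have hx1 : ∀ i, ‖x' i‖ ≤ 1 := by
    intro i
    rw [hx', Pi.smul_apply, norm_smul, norm_inv, norm_norm, inv_mul_le_iff₀ h0, mul_one]
    exact norm_le_pi_norm x i
  have haw : aN w' ≤ 9 / 10 := by
    rw [hw', aN_smul, abs_of_pos (inv_pos.2 h1), inv_mul_le_iff₀ h1]
    linarith
  have h2 := norm_mix hτ hb hx1 (w := w') (by linarith)
  have hxn : ‖x'‖ ≤ 1 := by
    rw [pi_norm_le_iff_of_nonneg zero_le_one]
    exact hx1
  have hwn : ‖w'‖ ≤ 1 := by
    rw [hw', norm_smul, norm_inv, norm_norm, inv_mul_cancel₀ h1.ne']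
  have h3 : ‖τ x' w'‖ ≤ 1 := (hτ x' w').trans (mul_le_one₀ hxn (norm_nonneg _) hwn)
  have h4 : ‖uu τ b + τ x' w'‖ ≤ 2 - 1 / 1600 := by
    have h5 : uu τ b + τ x' w' = (uu τ b + (1 / 160 : ℝ) • τ x' w') +
        (159 / 160 : ℝ) • τ x' w' := by module
    rw [h5]
    refine (norm_add_le _ _).trans ?_
    rw [norm_smul (159 / 160 : ℝ), Real.norm_of_nonneg (by norm_num)]
    linarith
  have h6 : (‖x‖ * ‖w‖) • uu τ b + τ x w = (‖x‖ * ‖w‖) • (uu τ b + τ x' w') := by
    have h7 : τ x' w' = (‖w‖⁻¹ * ‖x‖⁻¹) • τ x w := by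
      rw [hx', hw', map_smul, map_smul, LinearMap.smul_apply, smul_smul]
    rw [smul_add, h7, smul_smul]
    have : ‖x‖ * ‖w‖ * (‖w‖⁻¹ * ‖x‖⁻¹) = 1 := by field_simp
    rw [this, one_smul]
  rw [h6, norm_smul, Real.norm_of_nonneg (by positivity), mul_comm]
  exact mul_le_mul_of_nonneg_right h4 (by positivity)

end tensor

section main

variable {B : Type} [NormedAddCommGroup B] [NormedSpace ℝ B]

/-- The elementary tensors. -/
noncomputable def tau1 : (Fin 5 → B) →ₗ[ℝ] Y →ₗ[ℝ] ProjTensor ℝ (Fin 5 → B) Y :=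
  TensorProduct.mk ℝ (Fin 5 → B) Y

/-- The elementary tensors twisted by the reflection. -/
noncomputable def tau2 : (Fin 5 → B) →ₗ[ℝ] Y →ₗ[ℝ] ProjTensor ℝ (Fin 5 → B) Y :=
  tau1.compl₂ R

lemma norm_tmul_le (x : Fin 5 → B) (y : Y) : ‖ProjTensor.tmul ℝ x y‖ ≤ ‖x‖ * ‖y‖ :=
  csInf_le (ProjTensor.bddBelow_repSums _) ⟨1, fun _ => x, fun _ => y, by simp, by simp⟩

lemma tau1_apply (x : Fin 5 → B) (y : Y) : tau1 x y = ProjTensor.tmul ℝ x y := rfl

lemma tau2_apply (x : Fin 5 → B) (y : Y) : tau2 x y = ProjTensor.tmul ℝ x (R y) := rfl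

lemma tau1_le (x : Fin 5 → B) (y : Y) : ‖tau1 x y‖ ≤ ‖x‖ * ‖y‖ := norm_tmul_le x y

lemma tau2_le (x : Fin 5 → B) (y : Y) : ‖tau2 x y‖ ≤ ‖x‖ * ‖y‖ := by
  have := norm_tmul_le x (R y)
  rwa [norm_R] at this

lemma min_le' (y : Y) : aN y ≤ 9 / 10 * ‖y‖ ∨ aN (R y) ≤ 9 / 10 * ‖y‖ := by
  have h1 : 5 / 9 * (aN y + aN (R y)) ≤ ‖y‖ := le_max_right _ _
  by_contra hcon
  push Not at hcon
  linarith [hcon.1, hcon.2]

lemma elem_le {b : B} (hb : ‖b‖ ≤ 1) (x : Fin 5 → B) (y : Y) :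
    ‖(‖x‖ * ‖y‖) • uu tau1 b + ProjTensor.tmul ℝ x y‖ +
      ‖(‖x‖ * ‖y‖) • uu tau2 b + ProjTensor.tmul ℝ x y‖ ≤ (4 - 1 / 1600) * (‖x‖ * ‖y‖) := by
  have hxy : 0 ≤ ‖x‖ * ‖y‖ := by positivity
  have h1 : ‖(‖x‖ * ‖y‖) • uu tau1 b + ProjTensor.tmul ℝ x y‖ ≤ 2 * (‖x‖ * ‖y‖) := by
    refine (norm_add_le _ _).trans ?_
    rw [norm_smul, Real.norm_of_nonneg hxy]
    have := mul_le_mul_of_nonneg_left (norm_uu tau1_le hb) hxy
    have := norm_tmul_le x y
    linarith
  have h2 : ‖(‖x‖ * ‖y‖) • uu tau2 b + ProjTensor.tmul ℝ x y‖ ≤ 2 * (‖x‖ * ‖y‖) := by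
    refine (norm_add_le _ _).trans ?_
    rw [norm_smul, Real.norm_of_nonneg hxy]
    have := mul_le_mul_of_nonneg_left (norm_uu tau2_le hb) hxy
    have := norm_tmul_le x y
    linarith
  rcases min_le' y with h | h
  · have h3 := norm_hom tau1_le hb x y h
    rw [tau1_apply] at h3
    linarith
  · have h3 := norm_hom tau2_le hb x (R y) (by rwa [norm_R])
    rw [tau2_apply, R_R, norm_R] at h3
    linarith

lemma all_le {b : B} (hb : ‖b‖ ≤ 1) (v : ProjTensor ℝ (Fin 5 → B) Y) :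
    ‖‖v‖ • uu tau1 b + v‖ + ‖‖v‖ • uu tau2 b + v‖ ≤ (4 - 1 / 1600) * ‖v‖ := by
  have key : ∀ r ∈ v.repSums,
      ‖r • uu tau1 b + v‖ + ‖r • uu tau2 b + v‖ ≤ (4 - 1 / 1600) * r := by
    rintro r ⟨n, x, y, rfl, rfl⟩
    have h1 : ∀ τ : (Fin 5 → B) →ₗ[ℝ] Y →ₗ[ℝ] ProjTensor ℝ (Fin 5 → B) Y,
        ‖(∑ i, ‖x i‖ * ‖y i‖) • uu τ b + ∑ i, ProjTensor.tmul ℝ (x i) (y i)‖ ≤
          ∑ i, ‖(‖x i‖ * ‖y i‖) • uu τ b + ProjTensor.tmul ℝ (x i) (y i)‖ := by
      intro τ
      rw [Finset.sum_smul, ← Finset.sum_add_distrib]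
      exact norm_sum_le _ _
    refine (add_le_add (h1 tau1) (h1 tau2)).trans ?_
    rw [← Finset.sum_add_distrib, Finset.mul_sum]
    exact Finset.sum_le_sum fun i _ => elem_le hb (x i) (y i)
  refine le_of_forall_pos_le_add fun ε hε => ?_
  obtain ⟨r, hr, hr'⟩ := exists_lt_of_csInf_lt v.repSums_nonempty
    (show sInf v.repSums < ‖v‖ + ε / 8 by
      have : ‖v‖ = sInf v.repSums := rfl
      linarith)
  have hvr : ‖v‖ ≤ r := csInf_le (ProjTensor.bddBelow_repSums v) hr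
  have h1 := key r hr
  have h2 : ∀ τ : (Fin 5 → B) →ₗ[ℝ] Y →ₗ[ℝ] ProjTensor ℝ (Fin 5 → B) Y, ‖uu τ b‖ ≤ 1 →
      ‖‖v‖ • uu τ b + v‖ ≤ ‖r • uu τ b + v‖ + (r - ‖v‖) := by
    intro τ hτ
    have h3 : ‖v‖ • uu τ b + v = (r • uu τ b + v) - (r - ‖v‖) • uu τ b := by module
    rw [h3]
    refine (norm_sub_le _ _).trans ?_
    rw [norm_smul, Real.norm_of_nonneg (by linarith)]
    have := mul_le_mul_of_nonneg_left hτ (show 0 ≤ r - ‖v‖ by linarith)
    linarith
  have h4 := h2 tau1 (norm_uu tau1_le hb)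
  have h5 := h2 tau2 (norm_uu tau2_le hb)
  linarith

/-- The inequality in the completed tensor product. -/
lemma completed {b : B} (hb : ‖b‖ ≤ 1) (v : ProjectiveTensorProduct ℝ (Fin 5 → B) Y) :
    ‖‖v‖ • ((uu tau1 b : ProjTensor ℝ (Fin 5 → B) Y) :
        ProjectiveTensorProduct ℝ (Fin 5 → B) Y) + v‖ +
      ‖‖v‖ • ((uu tau2 b : ProjTensor ℝ (Fin 5 → B) Y) :
        ProjectiveTensorProduct ℝ (Fin 5 → B) Y) + v‖ ≤ (4 - 1 / 1600) * ‖v‖ := by
  induction v using UniformSpace.Completion.induction_on with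
  | hp => exact isClosed_le (by fun_prop) (by fun_prop)
  | ih v =>
    rw [UniformSpace.Completion.norm_coe, ← UniformSpace.Completion.coe_smul,
      ← UniformSpace.Completion.coe_smul, ← UniformSpace.Completion.coe_add,
      ← UniformSpace.Completion.coe_add, UniformSpace.Completion.norm_coe,
      UniformSpace.Completion.norm_coe]
    exact all_le hb v

/-- The bilinear form given by a functional and a linear map of `Y`. -/
noncomputable def bil (f : StrongDual ℝ B) (ρ : Y →ₗ[ℝ] Y) : (Fin 5 → B) →ₗ[ℝ] Y →ₗ[ℝ] ℝ :=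
  LinearMap.mk₂ ℝ (fun x y => ∑ k : Fin 5, f (x k) * ρ y k)
    (fun x x' y => by
      rw [← Finset.sum_add_distrib]
      exact Finset.sum_congr rfl fun k _ => by rw [Pi.add_apply, map_add, add_mul])
    (fun c x y => by
      rw [smul_eq_mul, Finset.mul_sum]
      exact Finset.sum_congr rfl fun k _ => by
        rw [Pi.smul_apply, map_smul, smul_eq_mul, mul_assoc])
    (fun x y y' => by
      rw [← Finset.sum_add_distrib]
      exact Finset.sum_congr rfl fun k _ => by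
        rw [map_add]
        exact mul_add _ _ _)
    (fun c x y => by
      rw [smul_eq_mul, Finset.mul_sum]
      exact Finset.sum_congr rfl fun k _ => by
        rw [map_smul]
        exact mul_left_comm _ _ _)

lemma bil_apply (f : StrongDual ℝ B) (ρ : Y →ₗ[ℝ] Y) (x : Fin 5 → B) (y : Y) :
    bil f ρ x y = ∑ k : Fin 5, f (x k) * ρ y k := rfl

lemma bil_le {f : StrongDual ℝ B} (hf : ‖f‖ ≤ 1) {ρ : Y →ₗ[ℝ] Y} (hρ : ∀ y, ‖ρ y‖ = ‖y‖)
    (x : Fin 5 → B) (y : Y) : |bil f ρ x y| ≤ ‖x‖ * ‖y‖ := by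
  rw [bil_apply]
  refine (Finset.abs_sum_le_sum_abs _ _).trans ?_
  calc ∑ k : Fin 5, |f (x k) * ρ y k| ≤ ∑ k : Fin 5, ‖x‖ * |ρ y k| := by
        refine Finset.sum_le_sum fun k _ => ?_
        rw [abs_mul]
        exact mul_le_mul_of_nonneg_right
          ((R271.abs_dual_le_norm f hf (x k)).trans (norm_le_pi_norm x k)) (abs_nonneg _)
    _ = ‖x‖ * aN (ρ y) := by rw [← Finset.mul_sum]; rfl
    _ ≤ ‖x‖ * ‖y‖ := by
        rw [← hρ y]
        exact mul_le_mul_of_nonneg_left (aN_le _) (norm_nonneg _)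

/-- The linear functional on the tensor product. -/
noncomputable def fn (f : StrongDual ℝ B) (ρ : Y →ₗ[ℝ] Y) :
    ProjTensor ℝ (Fin 5 → B) Y →ₗ[ℝ] ℝ := TensorProduct.lift (bil f ρ)

lemma fn_tmul (f : StrongDual ℝ B) (ρ : Y →ₗ[ℝ] Y) (x : Fin 5 → B) (y : Y) :
    fn f ρ (ProjTensor.tmul ℝ x y) = bil f ρ x y := TensorProduct.lift.tmul _ _

lemma fn_le {f : StrongDual ℝ B} (hf : ‖f‖ ≤ 1) {ρ : Y →ₗ[ℝ] Y} (hρ : ∀ y, ‖ρ y‖ = ‖y‖)
    (v : ProjTensor ℝ (Fin 5 → B) Y) : fn f ρ v ≤ ‖v‖ := by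
  apply le_csInf v.repSums_nonempty
  rintro r ⟨n, x, y, rfl, rfl⟩
  rw [map_sum]
  refine Finset.sum_le_sum fun i _ => ?_
  rw [fn_tmul]
  exact (le_abs_self _).trans (bil_le hf hρ _ _)

/-- The central tensors have norm at least one. -/
lemma le_norm_uu {b : B} (hb : ‖b‖ = 1) :
    1 ≤ ‖(uu tau1 b : ProjTensor ℝ (Fin 5 → B) Y)‖ ∧
      1 ≤ ‖(uu tau2 b : ProjTensor ℝ (Fin 5 → B) Y)‖ := by
  have hb0 : ‖b‖ ≠ 0 := by
    rw [hb]
    exact one_ne_zero
  obtain ⟨f, hf1, hf2⟩ := exists_dual_vector ℝ b hb0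
  have hfb : f b = 1 := by
    rw [hf2, hb]
    norm_num
  have hev : ∀ k : Fin 5, (ev k) k = 1 := fun k => by
    show (Pi.single k 1 : Fin 5 → ℝ) k = 1
    rw [Pi.single_eq_same]
  have hbil : ∀ k : Fin 5, ∑ j : Fin 5, f ((Pi.single k b : Fin 5 → B) j) * (ev k) j = 1 := by
    intro k
    rw [Finset.sum_eq_single k]
    · rw [Pi.single_eq_same, hfb, hev, one_mul]
    · intro j _ hj
      rw [Pi.single_eq_of_ne hj, map_zero, zero_mul]
    · intro h
      exact absurd (Finset.mem_univ _) h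
  constructor
  · have h1 := fn_le (f := f) hf1.le (ρ := LinearMap.id) (fun y => rfl) (uu tau1 b)
    refine le_trans (le_of_eq ?_) h1
    rw [uu, map_smul, map_sum]
    have h2 : ∀ k : Fin 5, fn f LinearMap.id (A tau1 (fun _ => b) k) = 1 := by
      intro k
      rw [A, tau1_apply, fn_tmul, bil_apply]
      exact hbil k
    rw [Finset.sum_congr rfl fun k _ => h2 k]
    simp
  · have h1 := fn_le (f := f) hf1.le (ρ := R) norm_R (uu tau2 b)
    refine le_trans (le_of_eq ?_) h1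
    rw [uu, map_smul, map_sum]
    have h2 : ∀ k : Fin 5, fn f R (A tau2 (fun _ => b) k) = 1 := by
      intro k
      rw [A, tau2_apply, fn_tmul, bil_apply, R_R]
      exact hbil k
    rw [Finset.sum_congr rfl fun k _ => h2 k]
    simp

lemma not_octahedral [Nontrivial B] :
    ¬ Octahedral (ProjectiveTensorProduct ℝ (Fin 5 → B) Y) := by
  intro hOH
  obtain ⟨b, hb⟩ : ∃ b : B, ‖b‖ = 1 := by
    obtain ⟨x, hx⟩ := exists_ne (0 : B)
    refine ⟨‖x‖⁻¹ • x, ?_⟩
    rw [norm_smul, norm_inv, norm_norm, inv_mul_cancel₀ (norm_ne_zero_iff.2 hx)]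
  set u1 : ProjectiveTensorProduct ℝ (Fin 5 → B) Y :=
    ((uu tau1 b : ProjTensor ℝ (Fin 5 → B) Y) : ProjectiveTensorProduct ℝ (Fin 5 → B) Y) with hu1
  set u2 : ProjectiveTensorProduct ℝ (Fin 5 → B) Y :=
    ((uu tau2 b : ProjTensor ℝ (Fin 5 → B) Y) : ProjectiveTensorProduct ℝ (Fin 5 → B) Y) with hu2
  obtain ⟨h1, h2⟩ := le_norm_uu hb
  obtain ⟨y, hy, hy2⟩ := hOH (Submodule.span ℝ {u1, u2})
    (FiniteDimensional.span_of_finite ℝ (Set.toFinite _)) (1 / 8000) (by norm_num)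
  have h3 := hy2 u1 (Submodule.subset_span (by simp)) 1
  have h4 := hy2 u2 (Submodule.subset_span (by simp)) 1
  have h5 := completed hb.le y
  rw [hy, one_smul, one_smul] at h5
  have h6 : 1 ≤ ‖u1‖ := by rw [hu1, UniformSpace.Completion.norm_coe]; exact h1
  have h7 : 1 ≤ ‖u2‖ := by rw [hu2, UniformSpace.Completion.norm_coe]; exact h2
  rw [one_smul, abs_one] at h3 h4
  linarith

lemma oh_pi (hB : Octahedral B) : Octahedral (Fin 5 → B) := by
  intro E hE ε hε
  have h : ∀ k : Fin 5, ∃ y : B, ‖y‖ = 1 ∧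
      ∀ x ∈ E.map (LinearMap.proj k : (Fin 5 → B) →ₗ[ℝ] B), ∀ t : ℝ,
        (1 - ε) * (‖x‖ + |t|) ≤ ‖x + t • y‖ := by
    intro k
    exact hB _ inferInstance ε hε
  choose y hy1 hy2 using h
  refine ⟨y, ?_, fun x hx t => ?_⟩
  · apply le_antisymm
    · rw [pi_norm_le_iff_of_nonneg zero_le_one]
      exact fun k => (hy1 k).le
    · rw [← hy1 0]
      exact norm_le_pi_norm y 0
  · obtain ⟨k, hk⟩ := Finite.exists_max fun k => ‖x k‖
    have h1 : ‖x‖ = ‖x k‖ :=
      le_antisymm ((pi_norm_le_iff_of_nonneg (norm_nonneg _)).2 hk) (norm_le_pi_norm x k)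
    rw [h1]
    exact (hy2 k (x k) ⟨x, hx, rfl⟩ t).trans (norm_le_pi_norm (x + t • y) k)

end main

/-- The space `ℓ₁`. -/
abbrev L1 : Type := lp (fun _ : ℕ => ℝ) 1

lemma oh_l1 : Octahedral L1 := by
  intro E hE ε hε
  obtain ⟨T, hT, hnet⟩ := R271.exists_finite_net E (η := ε / 4) (by positivity)
  have hev : ∀ x ∈ T, ∀ᶠ m in atTop, |x m| < ε / 4 := by
    intro x _
    have h1 : Summable fun m => ‖x m‖ := by
      have := (lp.memℓp x).summable (by norm_num)
      simpa using this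
    have h2 := h1.tendsto_atTop_zero
    exact (h2.eventually (gt_mem_nhds (by positivity)))
  obtain ⟨m, hm⟩ := ((Finset.eventually_all T).2 hev).exists
  have hsub : ∀ f : L1, ‖f‖ - ‖f - lp.single 1 m (f m)‖ = |f m| := by
    intro f
    have := lp.norm_sub_norm_compl_sub_single (p := 1) (by norm_num) f {m}
    simpa using this
  refine ⟨lp.single 1 m 1, by rw [lp.norm_single (by norm_num)]; simp, fun x hx t => ?_⟩
  have hxm : |x m| ≤ ε / 2 * ‖x‖ := by
    rcases (norm_nonneg x).eq_or_lt with h0 | h0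
    · have : x = 0 := norm_eq_zero.1 h0.symm
      rw [this]
      simp
    · obtain ⟨z, hz, hz2⟩ := hnet (‖x‖⁻¹ • x) (E.smul_mem _ hx)
        (by rw [norm_smul, norm_inv, norm_norm, inv_mul_cancel₀ h0.ne'])
      have h1 : |(‖x‖⁻¹ • x - z) m| ≤ ‖‖x‖⁻¹ • x - z‖ := by
        rw [← Real.norm_eq_abs]
        exact lp.norm_apply_le_norm (one_ne_zero : (1 : ℝ≥0∞) ≠ 0) (‖x‖⁻¹ • x - z) m
      have h2 : |(‖x‖⁻¹ • x) m| ≤ |(‖x‖⁻¹ • x - z) m| + |z m| := by
        have : (‖x‖⁻¹ • x) m = (‖x‖⁻¹ • x - z) m + z m := by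
          rw [lp.coeFn_sub, Pi.sub_apply]
          ring
        rw [this]
        exact abs_add_le _ _
      have h3 : |(‖x‖⁻¹ • x) m| = ‖x‖⁻¹ * |x m| := by
        rw [lp.coeFn_smul, Pi.smul_apply, smul_eq_mul, abs_mul, abs_of_pos (inv_pos.2 h0)]
      have h4 := hm z hz
      rw [h3] at h2
      have h5 : ‖x‖⁻¹ * |x m| ≤ ε / 2 := by linarith
      rw [inv_mul_le_iff₀ h0] at h5
      linarith
  have h1 := hsub (x + t • lp.single 1 m 1)
  have h2 := hsub x
  have h3 : (x + t • lp.single 1 m 1 : L1) m = x m + t := by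
    rw [lp.coeFn_add, Pi.add_apply, lp.coeFn_smul, Pi.smul_apply, lp.single_apply_self,
      smul_eq_mul, mul_one]
  have h4 : (x + t • lp.single 1 m 1 : L1) - lp.single 1 m (x m + t) =
      x - lp.single 1 m (x m) := by
    have h5 : (lp.single 1 m (x m + t) : L1) = lp.single 1 m (x m) + t • lp.single 1 m 1 := by
      rw [← lp.single_smul, ← lp.single_add, smul_eq_mul, mul_one]
    rw [h5]
    abel
  rw [h3, h4] at h1
  have h6 : |t| ≤ |x m + t| + |x m| := by
    have : t = (x m + t) - x m := by ring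
    conv_lhs => rw [this]
    exact abs_sub _ _
  have h7 : 0 ≤ ε * |t| := by positivity
  nlinarith

/-- There is a five-dimensional space `Y` such that for every nontrivial `B` the projective tensor
product of `ℓ_∞^5(B)` and `Y` is not octahedral, while `ℓ_∞^5(B)` is octahedral if `B` is. In
particular there are Banach spaces `X` and `Y` such that `X` is octahedral and the projective
tensor product of `X` and `Y` is not. -/
theorem result :
    (∃ (Y : Type) (_ : NormedAddCommGroup Y) (_ : NormedSpace ℝ Y) (_ : CompleteSpace Y),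
      Module.finrank ℝ Y = 5 ∧
      ∀ (B : Type) [NormedAddCommGroup B] [NormedSpace ℝ B] [Nontrivial B],
        (Octahedral B → Octahedral (Fin 5 → B)) ∧
          ¬ Octahedral (ProjectiveTensorProduct ℝ (Fin 5 → B) Y)) ∧
    ∃ (X : Type) (_ : NormedAddCommGroup X) (_ : NormedSpace ℝ X) (_ : CompleteSpace X)
      (Y : Type) (_ : NormedAddCommGroup Y) (_ : NormedSpace ℝ Y) (_ : CompleteSpace Y),
      Octahedral X ∧ ¬ Octahedral (ProjectiveTensorProduct ℝ X Y) := by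
  refine ⟨⟨Y, inferInstance, inferInstance, inferInstance, ?_, fun B _ _ _ =>
    ⟨oh_pi, not_octahedral⟩⟩, Fin 5 → L1, inferInstance, inferInstance, inferInstance, Y,
    inferInstance, inferInstance, inferInstance, oh_pi oh_l1, ?_⟩
  · show Module.finrank ℝ (Fin 5 → ℝ) = 5
    rw [Module.finrank_fin_fun]
  · have : Nontrivial L1 := by
      refine ⟨⟨lp.single 1 0 1, 0, fun h => ?_⟩⟩
      have h1 := congrArg (fun f : L1 => f 0) h
      simp at h1
    exact not_octahedral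

end Pool.Agent.Results.MP_247e0b_an.ProjectiveTensorNotOctahedral
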